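import Mathlib.GroupTheory.SpecificGroups.Dihedral
import Mathlib.SetTheory.Cardinal.Basic
import Mathlib.Order.Filter.Ultrafilter.Basic
import Mathlib.Tactic.LinearCombination
import Pool.Agent.X126.Dtc.Main

/-!
# MP_1a7a11_al, Q1 and Q2: disproved

The restricted direct sum of the dihedral groups of order `2 (2 n + 3)`, `n = 0, 1, 2, ...`, is a
countably infinite FC group which is DTC(1), so it is not DTC(2).
-/

namespace Pool.Agent.Results.MP_1a7a11_al.CountableFCNotTwo

open Filter X126.Dtc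

universe u

/-- The ultrafilter `u □ v`, as a set of subsets of `G`:
`{A | {x | x⁻¹ A ∈ v} ∈ u}`. -/
def box {G : Type u} [Group G] (p q : Ultrafilter G) : Set (Set G) :=
  {A | {x | (fun y => x⁻¹ * y) '' A ∈ q} ∈ p}

/-- The ultrafilter `u ◇ v`, as a set of subsets of `G`:
`{A | {x | A x⁻¹ ∈ u} ∈ v}`. -/
def dia {G : Type u} [Group G] (p q : Ultrafilter G) : Set (Set G) :=
  {A | {x | (fun y => y * x⁻¹) '' A ∈ p} ∈ q}

/-- `D` is a DTC set for `β G`: for every nonprincipal `p` there is `q ∈ D` with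
`p □ q ≠ p ◇ q`. -/
def IsDTCSet {G : Type u} [Group G] (D : Set (Ultrafilter G)) : Prop :=
  ∀ p : Ultrafilter G, (∀ x : G, p ≠ pure x) → ∃ q ∈ D, box p q ≠ dia p q

/-- `G` is DTC(κ): `κ` is the least cardinality of a DTC set. -/
def IsDTC (G : Type u) [Group G] (κ : Cardinal.{u}) : Prop :=
  IsLeast {lam : Cardinal.{u} | ∃ D : Set (Ultrafilter G), IsDTCSet D ∧ Cardinal.mk D = lam} κ

/-- FC group: all conjugacy classes are finite. -/
def IsFC (G : Type u) [Group G] : Prop :=
  ∀ x : G, {y : G | ∃ g : G, y = g * x * g⁻¹}.Finite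

theorem image_left {G : Type u} [Group G] (x : G) (A : Set G) :
    (fun y => x⁻¹ * y) '' A = {y | x * y ∈ A} := by
  ext y
  constructor
  · rintro ⟨z, hz, rfl⟩
    show x * (x⁻¹ * z) ∈ A
    rwa [mul_inv_cancel_left]
  · intro hy
    exact ⟨x * y, hy, by show x⁻¹ * (x * y) = y; rw [inv_mul_cancel_left]⟩

theorem image_right {G : Type u} [Group G] (x : G) (A : Set G) :
    (fun y => y * x⁻¹) '' A = {y | y * x ∈ A} := by
  ext y
  constructor
  · rintro ⟨z, hz, rfl⟩
    show z * x⁻¹ * x ∈ A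
    rwa [inv_mul_cancel_right]
  · intro hy
    exact ⟨y * x, hy, by show y * x * x⁻¹ = y; rw [mul_inv_cancel_right]⟩

/-- The dihedral groups used. -/
abbrev Dih (n : ℕ) : Type := DihedralGroup (2 * n + 3)

/-- The counterexample: finitely supported sequences in the product of the dihedral groups. -/
abbrev GG : Type := fs Dih

/-- rotations -/
def rot (n : ℕ) : Dih n := DihedralGroup.r 1

/-- reflections -/
def refl (n : ℕ) : Dih n := DihedralGroup.sr 0

theorem refl_ne (n : ℕ) : refl n ≠ 1 := by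
  rw [DihedralGroup.one_def]
  intro h
  cases h

theorem rot_conj (t : ℕ) (ht : 1 ≤ t) :
    ∀ᶠ k in atTop, rot k ^ t * refl k * (rot k ^ t)⁻¹ ≠ refl k := by
  filter_upwards [eventually_ge_atTop t] with k hk h
  unfold rot refl at h
  rw [DihedralGroup.r_one_pow, DihedralGroup.r_mul_sr, DihedralGroup.inv_r,
    DihedralGroup.sr_mul_r] at h
  have h1 : (0 : ZMod (2 * k + 3)) - (t : ZMod (2 * k + 3)) + -(t : ZMod (2 * k + 3)) = 0 :=
    DihedralGroup.sr.inj h
  have h2 : ((2 * t : ℕ) : ZMod (2 * k + 3)) = 0 := by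
    push_cast
    linear_combination -h1
  rw [ZMod.natCast_eq_zero_iff] at h2
  have h3 := Nat.le_of_dvd (by omega) h2
  omega

instance (n : ℕ) : Finite (Dih n) := by
  have : NeZero (2 * n + 3) := ⟨by omega⟩
  infer_instance

theorem countable_GG : Countable GG := by
  rw [← Set.countable_univ_iff]
  have h : (Set.univ : Set GG) = ⋃ N : ℕ, {g : GG | ∀ i, N ≤ i → (g : ∀ i, Dih i) i = 1} := by
    ext g
    simp only [Set.mem_univ, Set.mem_iUnion, true_iff]
    exact g.2
  rw [h]
  exact Set.countable_iUnion (fun N => (finite_le N).countable)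

theorem yG_injective : Function.Injective (yG rot refl) := by
  intro k l h
  have h1 : ∀ i, yy rot refl k i = yy rot refl l i := fun i => congrFun (congrArg Subtype.val h) i
  by_contra hne
  rcases Nat.lt_or_gt_of_ne hne with hlt | hlt
  · have h2 := h1 l
    rw [yy_gt rot refl hlt, yy_self] at h2
    exact refl_ne l h2.symm
  · have h2 := h1 k
    rw [yy_gt rot refl hlt, yy_self] at h2
    exact refl_ne k h2

theorem infinite_GG : Infinite GG := Infinite.of_injective _ yG_injective

theorem fc_GG : IsFC GG := by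
  intro x
  obtain ⟨N, hN⟩ := x.2
  refine (finite_le (F := Dih) N).subset ?_
  rintro y ⟨g, rfl⟩ i hi
  show (g : ∀ i, Dih i) i * (x : ∀ i, Dih i) i * ((g : ∀ i, Dih i) i)⁻¹ = 1
  rw [hN i hi, mul_one, mul_inv_cancel]

/-- The single ultrafilter: the image of a nonprincipal ultrafilter on `ℕ` under
`k ↦ (rot 0, ..., rot (k-1), refl k, 1, 1, ...)`. -/
noncomputable def vv : Ultrafilter GG := (hyperfilter ℕ).map (yG rot refl)

theorem dtc_vv : IsDTCSet {vv} := by
  intro p hp
  refine ⟨vv, Set.mem_singleton _, ?_⟩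
  obtain ⟨A, hA⟩ := key (a := rot) (c := refl) refl_ne rot_conj p hp (hyperfilter ℕ)
    Nat.hyperfilter_le_atTop
  intro heq
  apply hA
  have h1 : A ∈ box p vv ↔ A ∈ dia p vv := by rw [heq]
  have h2 : A ∈ box p vv ↔
      ∀ᶠ x in p, ∀ᶠ k in (hyperfilter ℕ), x * yG rot refl k ∈ A := by
    unfold box
    rw [Set.mem_ofPred_eq]
    simp only [image_left]
    rfl
  have h3 : A ∈ dia p vv ↔
      ∀ᶠ k in (hyperfilter ℕ), ∀ᶠ x in p, x * yG rot refl k ∈ A := by
    unfold dia
    rw [Set.mem_ofPred_eq]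
    simp only [image_right]
    rfl
  rw [← h2, ← h3]
  exact h1

theorem isDTC_one : IsDTC GG 1 := by
  constructor
  · exact ⟨{vv}, dtc_vv, Cardinal.mk_singleton _⟩
  · rintro lam ⟨D, hD, rfl⟩
    rw [Cardinal.one_le_iff_ne_zero, Cardinal.mk_ne_zero_iff]
    have := infinite_GG
    obtain ⟨q, hq, _⟩ := hD (hyperfilter GG) (fun x h => by
      have h1 : ({x} : Set GG) ∈ (hyperfilter GG : Filter GG) := by
        rw [h]
        exact Set.mem_singleton x
      exact notMem_hyperfilter_of_finite (Set.finite_singleton x) h1)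
    exact ⟨⟨q, hq⟩⟩

/-- **Q1 and Q2, disproved.** There is a countably infinite FC group `G` and a single ultrafilter
`v` on `G` with `p □ v ≠ p ◇ v` for every nonprincipal `p`; so `G` is DTC(1), not DTC(2). -/
theorem result : ∃ (G : Type) (_ : Group G), Countable G ∧ Infinite G ∧ IsFC G ∧
    (∃ v : Ultrafilter G, ∀ p : Ultrafilter G, (∀ x : G, p ≠ pure x) → box p v ≠ dia p v) ∧
    IsDTC G 1 ∧ ¬ IsDTC G 2 := by
  refine ⟨GG, inferInstance, countable_GG, infinite_GG, fc_GG, ⟨vv, ?_⟩, isDTC_one, ?_⟩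
  · intro p hp
    obtain ⟨q, hq, h⟩ := dtc_vv p hp
    rw [Set.mem_singleton_iff] at hq
    rwa [hq] at h
  · intro h
    have h1 : (2 : Cardinal) ≤ 1 := h.2 isDTC_one.1
    exact absurd h1 (by norm_num)

end Pool.Agent.Results.MP_1a7a11_al.CountableFCNotTwo
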